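import Mathlib

/-!
For every `r ≥ 2` and every `m ≥ 2` there is a complete simple game with exactly `r`
shift-minimal winning types that is `m`-invariant trade robust but not
`(m+1)`-invariant trade robust.
-/

namespace Pool.Agent.Results.MP_0d0d23_co.AllRanks

open Finset

/-- A simple game on a finite player set: an up-closed family of winning coalitions. -/
structure SimpleGame (N : Type) where
  /-- the coalition `S` is winning -/
  win : Finset N → Prop
  /-- the winning coalitions form an up-closed family -/
  mono : ∀ S T : Finset N, S ⊆ T → win S → win T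

variable {N : Type} [Fintype N] [DecidableEq N]

/-- Player `i` is at least as desirable as player `j`. -/
def Des (G : SimpleGame N) (i j : N) : Prop :=
  ∀ S : Finset N, i ∉ S → j ∉ S → G.win (insert j S) → G.win (insert i S)

/-- A game is complete if its desirability relation is total. -/
def Complete (G : SimpleGame N) : Prop := ∀ i j : N, Des G i j ∨ Des G j i

open scoped Classical in
/-- The type of the coalition `S`, as a function on players: at the player `i` it is the number
of members of `S` in the equivalence class of `i`. -/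
noncomputable def typ (G : SimpleGame N) (S : Finset N) : N → ℕ :=
  fun i => (S.filter (fun j => Des G j i ∧ Des G i j)).card

open scoped Classical in
/-- The partial sum of the type of `S` over the class of `i` and all the better classes: the
number of members of `S` which are at least as desirable as `i`. -/
noncomputable def psum (G : SimpleGame N) (S : Finset N) : N → ℕ :=
  fun i => (S.filter (fun j => Des G j i)).card

/-- `S` is shift-minimal winning: it is winning, and every coalition `T` whose type is
strictly below the type of `S` (all partial sums at most those of `S`, and a different type) is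
losing. -/
def SMW (G : SimpleGame N) (S : Finset N) : Prop :=
  G.win S ∧ ∀ T : Finset N, (∀ i, psum G T i ≤ psum G S i) → typ G T ≠ typ G S → ¬ G.win T

/-- The number `r` of shift-minimal winning types. -/
noncomputable def numSMW (G : SimpleGame N) : ℕ :=
  Set.ncard {f : N → ℕ | ∃ S : Finset N, SMW G S ∧ f = typ G S}

/-- `m`-invariant trade robustness: there is no trading transform `⟨X₁,…,X_j;Y₁,…,Y_j⟩` with
`1 ≤ j ≤ m`, all `X_i` shift-minimal winning and all `Y_i` losing. -/
def ITR (G : SimpleGame N) (m : ℕ) : Prop :=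
  ∀ j : ℕ, 0 < j → j ≤ m → ∀ X Y : Fin j → Finset N,
    (∀ i, SMW G (X i)) → (∀ i, ¬ G.win (Y i)) →
    ¬ ∀ p : N, (univ.filter (fun i => p ∈ X i)).card = (univ.filter (fun i => p ∈ Y i)).card

/-! ### The step: add a passer and a vetoer -/

/-- The part of a coalition of the enlarged game lying in the old player set. -/
def core (S : Finset (Option (Option N))) : Finset N :=
  univ.filter (fun x => some (some x) ∈ S)

omit [DecidableEq N] in
lemma mem_core {S : Finset (Option (Option N))} {x : N} [DecidableEq N] :
    x ∈ core S ↔ some (some x) ∈ S := by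
  simp [core]

/-- The enlarged game: `none` is a passer and `some none` is a vetoer for the rest. -/
def step (G : SimpleGame N) : SimpleGame (Option (Option N)) where
  win S := none ∈ S ∨ (some none ∈ S ∧ G.win (core S))
  mono S T h hS := by
    rcases hS with h0 | ⟨h1, h2⟩
    · exact Or.inl (h h0)
    · refine Or.inr ⟨h h1, G.mono _ _ ?_ h2⟩
      intro x hx
      rw [mem_core] at hx ⊢
      exact h hx

/-- A coalition of the old game together with the vetoer. -/
def up (T : Finset N) : Finset (Option (Option N)) :=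
  univ.filter (fun z => z = some none ∨ ∃ x ∈ T, z = some (some x))

lemma none_notMem_up (T : Finset N) : (none : Option (Option N)) ∉ up T := by
  simp [up]

lemma v_mem_up (T : Finset N) : (some none : Option (Option N)) ∈ up T := by
  simp [up]

lemma x_mem_up (T : Finset N) (x : N) : (some (some x) : Option (Option N)) ∈ up T ↔ x ∈ T := by
  simp [up]

lemma core_up (T : Finset N) : core (up T) = T := by
  ext x
  rw [mem_core, x_mem_up]

lemma core_insert_none (S : Finset (Option (Option N))) : core (insert none S) = core S := by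
  ext x
  simp [mem_core]

lemma core_insert_v (S : Finset (Option (Option N))) : core (insert (some none) S) = core S := by
  ext x
  simp [mem_core]

lemma core_insert_x (S : Finset (Option (Option N))) (y : N) :
    core (insert (some (some y)) S) = insert y (core S) := by
  ext x
  simp [mem_core]

lemma step_win (G : SimpleGame N) (S : Finset (Option (Option N))) :
    (step G).win S ↔ (none ∈ S ∨ (some none ∈ S ∧ G.win (core S))) := Iff.rfl

lemma des_p (G : SimpleGame N) (z : Option (Option N)) : Des (step G) none z := by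
  intro S _ _ _
  rw [step_win]
  left
  simp

lemma des_v_x (G : SimpleGame N) (x : N) : Des (step G) (some none) (some (some x)) := by
  intro S h1 h2 h
  rw [step_win] at h ⊢
  rcases h with h | ⟨h, _⟩
  · left
    simp at h
    simp [h]
  · exfalso
    simp at h
    exact h1 h

lemma not_des_p (G : SimpleGame N) (h0 : ¬ G.win ∅) (z : Option N) :
    ¬ Des (step G) (some z) none := by
  intro h
  have := h ∅ (by simp) (by simp) (by rw [step_win]; left; simp)
  rw [step_win] at this
  rcases this with h | ⟨h, h'⟩
  · simp at h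
  · have hz : z = none := by
      simpa [eq_comm] using h
    subst hz
    rw [core_insert_v] at h'
    apply h0
    have : core (∅ : Finset (Option (Option N))) = ∅ := by
      ext x
      simp [mem_core]
    rwa [this] at h'

lemma not_des_v (G : SimpleGame N) (hv : ∀ x : N, ∃ S : Finset N, x ∉ S ∧ G.win S) (x : N) :
    ¬ Des (step G) (some (some x)) (some none) := by
  intro h
  obtain ⟨S, hxS, hS⟩ := hv x
  have := h ((up S).erase (some none)) (by simp [x_mem_up, hxS]) (by simp) (by
    rw [step_win]; right
    rw [Finset.insert_erase (v_mem_up S)]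
    exact ⟨v_mem_up S, by rw [core_up]; exact hS⟩)
  rw [step_win] at this
  rcases this with h | ⟨h, _⟩
  · simp [none_notMem_up] at h
  · simp at h

lemma des_x_x (G : SimpleGame N) (x y : N) :
    Des (step G) (some (some x)) (some (some y)) ↔ Des G x y := by
  constructor
  · intro h S hx hy hw
    have := h (up S) (by rwa [x_mem_up]) (by rwa [x_mem_up]) (by
      rw [step_win]; right
      refine ⟨by simp [v_mem_up], ?_⟩
      rw [core_insert_x, core_up]
      exact hw)
    rw [step_win] at this
    rcases this with h | ⟨_, h⟩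
    · simp [none_notMem_up] at h
    · rwa [core_insert_x, core_up] at h
  · intro h S hx hy hw
    rw [step_win] at hw ⊢
    rcases hw with hw | ⟨h1, h2⟩
    · left
      simp at hw
      simp [hw]
    · right
      refine ⟨by simp at h1; simp [h1], ?_⟩
      rw [core_insert_x] at h2 ⊢
      exact h _ (by rwa [mem_core]) (by rwa [mem_core]) h2

lemma card_split (S : Finset (Option (Option N))) (P : Option (Option N) → Prop)
    [DecidablePred P] :
    (S.filter P).card = (if none ∈ S ∧ P none then 1 else 0)
      + (if some none ∈ S ∧ P (some none) then 1 else 0)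
      + ((core S).filter (fun x => P (some (some x)))).card := by
  have h1 : (S.filter P) = univ.filter (fun z => z ∈ S ∧ P z) := by
    ext z; simp
  have h2 : ((core S).filter (fun x => P (some (some x))))
      = univ.filter (fun x => some (some x) ∈ S ∧ P (some (some x))) := by
    ext z; simp [mem_core]
  rw [h1, h2, Finset.card_filter, Finset.card_filter, Fintype.sum_option, Fintype.sum_option]
  ring

lemma psum_p (G : SimpleGame N) (h0 : ¬ G.win ∅) (S : Finset (Option (Option N))) :
    psum (step G) S none = if none ∈ S then 1 else 0 := by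
  classical
  unfold psum
  rw [card_split]
  have e2 : Des (step G) none none := des_p G none
  have e3 : ¬ Des (step G) (some none) none := not_des_p G h0 none
  rw [Finset.filter_false_of_mem (s := core S) (fun x _ => not_des_p G h0 (some x))]
  simp [e2, e3]

lemma psum_v (G : SimpleGame N) (hv : ∀ x : N, ∃ S : Finset N, x ∉ S ∧ G.win S)
    (S : Finset (Option (Option N))) :
    psum (step G) S (some none) = (if none ∈ S then 1 else 0) + (if some none ∈ S then 1 else 0) := by
  classical
  unfold psum
  rw [card_split]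
  have e2 : Des (step G) none (some none) := des_p G _
  have e3 : Des (step G) (some none) (some none) := fun _ _ _ h => h
  rw [Finset.filter_false_of_mem (s := core S) (fun x _ => not_des_v G hv x)]
  simp [e2, e3]

lemma psum_x (G : SimpleGame N) (S : Finset (Option (Option N))) (x : N) :
    psum (step G) S (some (some x))
      = (if none ∈ S then 1 else 0) + (if some none ∈ S then 1 else 0) + psum G (core S) x := by
  classical
  unfold psum
  rw [card_split]
  have e2 : Des (step G) none (some (some x)) := des_p G _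
  have e3 : Des (step G) (some none) (some (some x)) := des_v_x G x
  rw [Finset.filter_congr (s := core S) (fun y _ => des_x_x G y x)]
  simp only [e2, e3, and_true]

lemma typ_p (G : SimpleGame N) (h0 : ¬ G.win ∅) (S : Finset (Option (Option N))) :
    typ (step G) S none = if none ∈ S then 1 else 0 := by
  classical
  unfold typ
  rw [card_split]
  have e2 : Des (step G) none none := des_p G none
  have e3 : ¬ Des (step G) (some none) none := not_des_p G h0 none
  rw [Finset.filter_false_of_mem (s := core S) (fun x _ h => not_des_p G h0 (some x) h.1)]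
  simp [e2, e3]

lemma typ_v (G : SimpleGame N) (h0 : ¬ G.win ∅)
    (hv : ∀ x : N, ∃ S : Finset N, x ∉ S ∧ G.win S)
    (S : Finset (Option (Option N))) :
    typ (step G) S (some none) = if some none ∈ S then 1 else 0 := by
  classical
  unfold typ
  rw [card_split]
  have e2 : ¬ Des (step G) (some none) none := not_des_p G h0 _
  have e3 : Des (step G) (some none) (some none) := fun _ _ _ h => h
  rw [Finset.filter_false_of_mem (s := core S) (fun x _ h => not_des_v G hv x h.1)]
  simp [e2, e3]

lemma typ_x (G : SimpleGame N) (h0 : ¬ G.win ∅)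
    (hv : ∀ x : N, ∃ S : Finset N, x ∉ S ∧ G.win S)
    (S : Finset (Option (Option N))) (x : N) :
    typ (step G) S (some (some x)) = typ G (core S) x := by
  classical
  unfold typ
  rw [card_split]
  have e2 : ¬ Des (step G) (some (some x)) none := not_des_p G h0 _
  have e3 : ¬ Des (step G) (some (some x)) (some none) := not_des_v G hv x
  rw [Finset.filter_congr (s := core S) (fun y _ => and_congr (des_x_x G y x) (des_x_x G x y))]
  simp only [e2, e3, and_false, if_false, zero_add]

lemma complete_step (G : SimpleGame N) (hG : Complete G) : Complete (step G) := by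
  intro i j
  rcases i with _ | _ | x
  · exact Or.inl (des_p G _)
  · rcases j with _ | _ | y
    · exact Or.inr (des_p G _)
    · exact Or.inl (fun _ _ _ h => h)
    · exact Or.inl (des_v_x G y)
  · rcases j with _ | _ | y
    · exact Or.inr (des_p G _)
    · exact Or.inr (des_v_x G x)
    · rcases hG x y with h | h
      · exact Or.inl ((des_x_x G x y).2 h)
      · exact Or.inr ((des_x_x G y x).2 h)

/-- The type of an enlarged coalition containing the vetoer, but not the passer. -/
def ext (f : N → ℕ) : Option (Option N) → ℕ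
  | none => 0
  | some none => 1
  | some (some x) => f x

omit [Fintype N] [DecidableEq N] in
lemma ext_inj : Function.Injective (ext : (N → ℕ) → _) := by
  intro f g h
  ext x
  exact congrFun h (some (some x))

lemma typ_eq_ext (G : SimpleGame N) (h0 : ¬ G.win ∅)
    (hv : ∀ x : N, ∃ S : Finset N, x ∉ S ∧ G.win S)
    (S : Finset (Option (Option N))) (h1 : none ∉ S) (h2 : some none ∈ S) :
    typ (step G) S = ext (typ G (core S)) := by
  funext z
  rcases z with _ | _ | x
  · rw [typ_p G h0, if_neg h1]; rfl
  · rw [typ_v G h0 hv, if_pos h2]; rfl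
  · rw [typ_x G h0 hv]; rfl

lemma smw_step (G : SimpleGame N) (h0 : ¬ G.win ∅)
    (hv : ∀ x : N, ∃ S : Finset N, x ∉ S ∧ G.win S)
    (S : Finset (Option (Option N))) :
    SMW (step G) S ↔ (S = {none} ∨ (none ∉ S ∧ some none ∈ S ∧ SMW G (core S))) := by
  have hce : core (∅ : Finset (Option (Option N))) = ∅ := by
    ext x
    simp [mem_core]
  have hc1 : core ({none} : Finset (Option (Option N))) = ∅ := by
    ext x
    simp [mem_core]
  have he : ∀ x, psum G (∅ : Finset N) x = 0 := by
    intro x; simp [psum]
  have hte : ∀ x, typ G (∅ : Finset N) x = 0 := by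
    intro x; simp [typ]
  classical
  constructor
  · rintro ⟨hw, hmin⟩
    by_cases hp : none ∈ S
    · left
      by_contra hne
      have hle : ∀ i, psum (step G) ({none} : Finset (Option (Option N))) i
          ≤ psum (step G) S i := by
        intro i
        rcases i with _ | _ | x
        · rw [psum_p G h0, psum_p G h0]; simp [hp]
        · rw [psum_v G hv, psum_v G hv]; simp [hp]
        · rw [psum_x G, psum_x G, hc1, he]
          simp only [hp, Finset.mem_singleton, if_true, reduceCtorEq, if_false]
          omega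
      have hne2 : typ (step G) ({none} : Finset (Option (Option N))) ≠ typ (step G) S := by
        intro heq
        apply hne
        have k1 := congrFun heq (some none)
        rw [typ_v G h0 hv, typ_v G h0 hv] at k1
        have k2 : ∀ x, some (some x) ∉ S := by
          intro x hx
          have k3 := congrFun heq (some (some x))
          rw [typ_x G h0 hv, typ_x G h0 hv, hc1, hte] at k3
          unfold typ at k3
          have k4 := k3.symm
          rw [Finset.card_eq_zero, Finset.filter_eq_empty_iff] at k4
          exact k4 (mem_core.2 hx) ⟨fun _ _ _ h => h, fun _ _ _ h => h⟩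
        ext z
        rcases z with _ | _ | x
        · simp [hp]
        · by_cases hvS : some none ∈ S
          · simp [hvS] at k1
          · simp [hvS]
        · simp [k2 x]
      exact hmin _ hle hne2 (by rw [step_win]; left; simp)
    · right
      rw [step_win] at hw
      rcases hw with hw | ⟨hw1, hw2⟩
      · exact absurd hw hp
      · refine ⟨hp, hw1, hw2, ?_⟩
        intro T hT hne hwT
        refine hmin (up T) ?_ ?_ ?_
        · intro i
          rcases i with _ | _ | x
          · rw [psum_p G h0, psum_p G h0]; simp [none_notMem_up]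
          · rw [psum_v G hv, psum_v G hv]; simp [none_notMem_up, v_mem_up, hw1]
          · rw [psum_x G, psum_x G, core_up]
            simp only [none_notMem_up, v_mem_up, hw1, hp, if_true, if_false]
            have := hT x
            omega
        · intro heq
          rw [typ_eq_ext G h0 hv _ (none_notMem_up T) (v_mem_up T),
            typ_eq_ext G h0 hv _ hp hw1, core_up] at heq
          exact hne (ext_inj heq)
        · rw [step_win]
          right
          exact ⟨v_mem_up T, by rwa [core_up]⟩
  · rintro (rfl | ⟨hp, hv1, hS, hmin⟩)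
    · refine ⟨by rw [step_win]; left; simp, ?_⟩
      intro T hT hne hw
      have a1 := hT none
      have a2 := hT (some none)
      rw [psum_p G h0, psum_p G h0] at a1
      rw [psum_v G hv, psum_v G hv] at a2
      rw [step_win] at hw
      simp only [Finset.mem_singleton, if_true, reduceCtorEq, if_false] at a1 a2
      rcases hw with hw | ⟨hw1, hw2⟩
      · simp only [hw, if_true] at a1 a2
        have hvT : some none ∉ T := by
          intro h
          simp [h] at a2
        apply hne
        have k2 : ∀ x, some (some x) ∉ T := by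
          intro x hx
          have k3 := hT (some (some x))
          rw [psum_x G, psum_x G, hc1, he] at k3
          simp only [hw, hvT, Finset.mem_singleton, if_true, reduceCtorEq, if_false] at k3
          have k5 : psum G (core T) x = 0 := by omega
          unfold psum at k5
          rw [Finset.card_eq_zero, Finset.filter_eq_empty_iff] at k5
          exact k5 (mem_core.2 hx) (fun _ _ _ h => h)
        congr 1
        ext z
        rcases z with _ | _ | x
        · simp [hw]
        · simp [hvT]
        · simp [k2 x]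
      · by_cases hpT : none ∈ T
        · simp [hpT, hw1] at a2
        · -- the vetoer and a winning coalition: some player of the core
          have hne' : (core T).Nonempty := by
            rw [Finset.nonempty_iff_ne_empty]
            intro h
            rw [h] at hw2
            exact h0 hw2
          obtain ⟨x, hx⟩ := hne'
          have k3 := hT (some (some x))
          rw [psum_x G, psum_x G, hc1, he] at k3
          simp only [hpT, hw1, Finset.mem_singleton, if_true, reduceCtorEq, if_false] at k3
          have k5 : psum G (core T) x = 0 := by omega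
          unfold psum at k5
          rw [Finset.card_eq_zero, Finset.filter_eq_empty_iff] at k5
          exact k5 hx (fun _ _ _ h => h)
    · refine ⟨by rw [step_win]; right; exact ⟨hv1, hS⟩, ?_⟩
      intro T hT hne hw
      have a1 := hT none
      rw [psum_p G h0, psum_p G h0] at a1
      simp only [hp, if_false] at a1
      have hpT : none ∉ T := by
        intro h
        simp [h] at a1
      rw [step_win] at hw
      rcases hw with hw | ⟨hw1, hw2⟩
      · exact hpT hw
      · refine hmin (core T) ?_ ?_ hw2
        · intro x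
          have := hT (some (some x))
          rw [psum_x G, psum_x G] at this
          simp only [hp, hpT, hw1, hv1, if_true, if_false] at this
          omega
        · intro heq
          apply hne
          rw [typ_eq_ext G h0 hv _ hpT hw1, typ_eq_ext G h0 hv _ hp hv1, heq]

lemma finite_typ (G : SimpleGame N) :
    {f : N → ℕ | ∃ S : Finset N, SMW G S ∧ f = typ G S}.Finite := by
  apply Set.Finite.subset (Set.finite_range (typ G))
  rintro f ⟨S, _, rfl⟩
  exact ⟨S, rfl⟩

lemma num_step (G : SimpleGame N) (h0 : ¬ G.win ∅)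
    (hv : ∀ x : N, ∃ S : Finset N, x ∉ S ∧ G.win S) :
    numSMW (step G) = numSMW G + 1 := by
  unfold numSMW
  have hset : {f : Option (Option N) → ℕ | ∃ S, SMW (step G) S ∧ f = typ (step G) S}
      = insert (typ (step G) {none})
        (ext '' {f : N → ℕ | ∃ S : Finset N, SMW G S ∧ f = typ G S}) := by
    ext f
    simp only [Set.mem_ofPred_eq, Set.mem_insert_iff, Set.mem_image]
    constructor
    · rintro ⟨S, hS, rfl⟩
      rw [smw_step G h0 hv] at hS
      rcases hS with rfl | ⟨h1, h2, h3⟩
      · left; rfl
      · right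
        exact ⟨typ G (core S), ⟨core S, h3, rfl⟩, (typ_eq_ext G h0 hv S h1 h2).symm⟩
    · rintro (rfl | ⟨g, ⟨S, hS, rfl⟩, rfl⟩)
      · exact ⟨{none}, (smw_step G h0 hv _).2 (Or.inl rfl), rfl⟩
      · refine ⟨up S, (smw_step G h0 hv _).2 (Or.inr ⟨none_notMem_up S, v_mem_up S, ?_⟩), ?_⟩
        · rwa [core_up]
        · rw [typ_eq_ext G h0 hv _ (none_notMem_up S) (v_mem_up S), core_up]
  rw [hset, Set.ncard_insert_of_notMem (hs := Set.Finite.image _ (finite_typ G)),
    Set.ncard_image_of_injective _ ext_inj]
  · rintro ⟨g, _, hg⟩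
    have := congrFun hg none
    rw [typ_p G h0] at this
    simp [ext] at this

lemma itr_step (G : SimpleGame N) (h0 : ¬ G.win ∅)
    (hv : ∀ x : N, ∃ S : Finset N, x ∉ S ∧ G.win S) (m : ℕ) :
    ITR (step G) m ↔ ITR G m := by
  constructor
  · intro h j hj hjm X Y hX hY htr
    refine h j hj hjm (fun i => up (X i)) (fun i => up (Y i)) ?_ ?_ ?_
    · intro i
      rw [smw_step G h0 hv]
      right
      exact ⟨none_notMem_up _, v_mem_up _, by rw [core_up]; exact hX i⟩
    · intro i hw
      rw [step_win] at hw
      rcases hw with hw | ⟨_, hw⟩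
      · exact none_notMem_up _ hw
      · rw [core_up] at hw
        exact hY i hw
    · intro z
      rcases z with _ | _ | x
      · simp [none_notMem_up]
      · simp [v_mem_up]
      · simp only [x_mem_up]
        exact htr x
  · intro h j hj hjm X Y hX hY htr
    have hpY : ∀ i, none ∉ Y i := by
      intro i hi
      exact hY i (by rw [step_win]; exact Or.inl hi)
    have hpX : ∀ i, none ∉ X i := by
      have h1 := htr none
      have h2 : (univ.filter (fun i => none ∈ Y i)).card = 0 := by
        rw [Finset.card_eq_zero, Finset.filter_eq_empty_iff]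
        intro i _
        exact hpY i
      rw [h2, Finset.card_eq_zero, Finset.filter_eq_empty_iff] at h1
      intro i
      exact h1 (Finset.mem_univ i)
    have hX' : ∀ i, some none ∈ X i ∧ SMW G (core (X i)) := by
      intro i
      have := hX i
      rw [smw_step G h0 hv] at this
      rcases this with h' | ⟨_, h2, h3⟩
      · exact absurd (by rw [h']; simp) (hpX i)
      · exact ⟨h2, h3⟩
    have hvY : ∀ i, some none ∈ Y i := by
      have h1 := htr (some none)
      have h2 : (univ.filter (fun i => some none ∈ X i)) = univ := by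
        ext i
        simp [(hX' i).1]
      rw [h2] at h1
      have h3 : univ.filter (fun i => some none ∈ Y i) = univ := by
        apply Finset.eq_univ_of_card
        rw [← h1]
        rfl
      intro i
      have : i ∈ univ.filter (fun i => some none ∈ Y i) := by
        rw [h3]; exact Finset.mem_univ i
      simpa using this
    refine h j hj hjm (fun i => core (X i)) (fun i => core (Y i)) (fun i => (hX' i).2) ?_ ?_
    · intro i hw
      exact hY i (by rw [step_win]; exact Or.inr ⟨hvY i, hw⟩)
    · intro x
      simp only [mem_core]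
      exact htr (some (some x))

/-! ### The base game -/

/-- The players of the base game: two of the first kind, `k` of each of the other kinds. -/
abbrev Pl (k : ℕ) := Fin 2 ⊕ (Fin k ⊕ Fin k)

/-- Number of members of the first kind. -/
def cA {k : ℕ} (S : Finset (Pl k)) : ℕ := (univ.filter (fun i : Fin 2 => Sum.inl i ∈ S)).card

/-- Number of members of the second kind. -/
def cB {k : ℕ} (S : Finset (Pl k)) : ℕ :=
  (univ.filter (fun i : Fin k => Sum.inr (Sum.inl i) ∈ S)).card

/-- Number of members of the third kind. -/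
def cC {k : ℕ} (S : Finset (Pl k)) : ℕ :=
  (univ.filter (fun i : Fin k => Sum.inr (Sum.inr i) ∈ S)).card

/-- The winning condition of the base game in terms of the three numbers. -/
def W (k a b c : ℕ) : Prop :=
  (a = 2 ∧ 3 ≤ a + b + c) ∨ (1 ≤ a ∧ 2 ≤ a + b ∧ k + 1 ≤ a + b + c)

lemma cA_le {k : ℕ} (S : Finset (Pl k)) : cA S ≤ 2 := by
  unfold cA
  calc _ ≤ (univ : Finset (Fin 2)).card := Finset.card_le_card (Finset.filter_subset _ _)
    _ = 2 := by simp

lemma cB_le {k : ℕ} (S : Finset (Pl k)) : cB S ≤ k := by
  unfold cB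
  calc _ ≤ (univ : Finset (Fin k)).card := Finset.card_le_card (Finset.filter_subset _ _)
    _ = k := by simp

lemma cC_le {k : ℕ} (S : Finset (Pl k)) : cC S ≤ k := by
  unfold cC
  calc _ ≤ (univ : Finset (Fin k)).card := Finset.card_le_card (Finset.filter_subset _ _)
    _ = k := by simp

/-- The base game. -/
def base (k : ℕ) : SimpleGame (Pl k) where
  win S := W k (cA S) (cB S) (cC S)
  mono S T h hS := by
    have h1 : cA S ≤ cA T := Finset.card_le_card (by
      intro i hi
      simp only [Finset.mem_filter, Finset.mem_univ, true_and] at hi ⊢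
      exact h hi)
    have h2 : cB S ≤ cB T := Finset.card_le_card (by
      intro i hi
      simp only [Finset.mem_filter, Finset.mem_univ, true_and] at hi ⊢
      exact h hi)
    have h3 : cC S ≤ cC T := Finset.card_le_card (by
      intro i hi
      simp only [Finset.mem_filter, Finset.mem_univ, true_and] at hi ⊢
      exact h hi)
    have h4 := cA_le T
    unfold W at hS ⊢
    omega

lemma base_win {k : ℕ} (S : Finset (Pl k)) : (base k).win S ↔ W k (cA S) (cB S) (cC S) := Iff.rfl

/-- The coalition with given members of the three kinds. -/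
def mk {k : ℕ} (A : Finset (Fin 2)) (B C : Finset (Fin k)) : Finset (Pl k) :=
  A.disjSum (B.disjSum C)

lemma cA_mk {k : ℕ} (A : Finset (Fin 2)) (B C : Finset (Fin k)) : cA (mk A B C) = A.card := by
  unfold cA mk
  congr 1
  ext i
  simp

lemma cB_mk {k : ℕ} (A : Finset (Fin 2)) (B C : Finset (Fin k)) : cB (mk A B C) = B.card := by
  unfold cB mk
  congr 1
  ext i
  simp

lemma cC_mk {k : ℕ} (A : Finset (Fin 2)) (B C : Finset (Fin k)) : cC (mk A B C) = C.card := by
  unfold cC mk
  congr 1
  ext i
  simp

lemma ins_A {k : ℕ} (S : Finset (Pl k)) (i : Fin 2) (h : (Sum.inl i : Pl k) ∉ S) :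
    cA (insert (Sum.inl i) S) = cA S + 1 ∧ cB (insert (Sum.inl i) S) = cB S
      ∧ cC (insert (Sum.inl i) S) = cC S := by
  refine ⟨?_, ?_, ?_⟩
  · unfold cA
    rw [← Finset.card_insert_of_notMem (a := i) (s := univ.filter (fun i : Fin 2 => Sum.inl i ∈ S))
      (by simpa using h)]
    congr 1
    ext j
    simp
  · unfold cB
    congr 1
    ext j
    simp
  · unfold cC
    congr 1
    ext j
    simp

lemma ins_B {k : ℕ} (S : Finset (Pl k)) (i : Fin k) (h : (Sum.inr (Sum.inl i) : Pl k) ∉ S) :
    cA (insert (Sum.inr (Sum.inl i)) S) = cA S ∧ cB (insert (Sum.inr (Sum.inl i)) S) = cB S + 1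
      ∧ cC (insert (Sum.inr (Sum.inl i)) S) = cC S := by
  refine ⟨?_, ?_, ?_⟩
  · unfold cA
    congr 1
    ext j
    simp
  · unfold cB
    rw [← Finset.card_insert_of_notMem (a := i)
      (s := univ.filter (fun i : Fin k => Sum.inr (Sum.inl i) ∈ S)) (by simpa using h)]
    congr 1
    ext j
    simp
  · unfold cC
    congr 1
    ext j
    simp

lemma ins_C {k : ℕ} (S : Finset (Pl k)) (i : Fin k) (h : (Sum.inr (Sum.inr i) : Pl k) ∉ S) :
    cA (insert (Sum.inr (Sum.inr i)) S) = cA S ∧ cB (insert (Sum.inr (Sum.inr i)) S) = cB S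
      ∧ cC (insert (Sum.inr (Sum.inr i)) S) = cC S + 1 := by
  refine ⟨?_, ?_, ?_⟩
  · unfold cA
    congr 1
    ext j
    simp
  · unfold cB
    congr 1
    ext j
    simp
  · unfold cC
    rw [← Finset.card_insert_of_notMem (a := i)
      (s := univ.filter (fun i : Fin k => Sum.inr (Sum.inr i) ∈ S)) (by simpa using h)]
    congr 1
    ext j
    simp

lemma des_AA {k : ℕ} (i j : Fin 2) : Des (base k) (Sum.inl i) (Sum.inl j) := by
  intro S hi hj h
  rw [base_win] at h ⊢
  obtain ⟨a1, a2, a3⟩ := ins_A S i hi
  obtain ⟨b1, b2, b3⟩ := ins_A S j hj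
  rw [a1, a2, a3]
  rwa [b1, b2, b3] at h

lemma des_BB {k : ℕ} (i j : Fin k) :
    Des (base k) (Sum.inr (Sum.inl i)) (Sum.inr (Sum.inl j)) := by
  intro S hi hj h
  rw [base_win] at h ⊢
  obtain ⟨a1, a2, a3⟩ := ins_B S i hi
  obtain ⟨b1, b2, b3⟩ := ins_B S j hj
  rw [a1, a2, a3]
  rwa [b1, b2, b3] at h

lemma des_CC {k : ℕ} (i j : Fin k) :
    Des (base k) (Sum.inr (Sum.inr i)) (Sum.inr (Sum.inr j)) := by
  intro S hi hj h
  rw [base_win] at h ⊢
  obtain ⟨a1, a2, a3⟩ := ins_C S i hi
  obtain ⟨b1, b2, b3⟩ := ins_C S j hj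
  rw [a1, a2, a3]
  rwa [b1, b2, b3] at h

lemma des_AB {k : ℕ} (i : Fin 2) (j : Fin k) :
    Des (base k) (Sum.inl i) (Sum.inr (Sum.inl j)) := by
  intro S hi hj h
  rw [base_win] at h ⊢
  obtain ⟨a1, a2, a3⟩ := ins_A S i hi
  obtain ⟨b1, b2, b3⟩ := ins_B S j hj
  have h4 := cA_le (insert (Sum.inl i) S)
  rw [a1] at h4
  rw [a1, a2, a3]
  rw [b1, b2, b3] at h
  unfold W at h ⊢
  omega

lemma des_AC {k : ℕ} (i : Fin 2) (j : Fin k) :
    Des (base k) (Sum.inl i) (Sum.inr (Sum.inr j)) := by
  intro S hi hj h
  rw [base_win] at h ⊢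
  obtain ⟨a1, a2, a3⟩ := ins_A S i hi
  obtain ⟨b1, b2, b3⟩ := ins_C S j hj
  have h4 := cA_le (insert (Sum.inl i) S)
  rw [a1] at h4
  rw [a1, a2, a3]
  rw [b1, b2, b3] at h
  unfold W at h ⊢
  omega

lemma des_BC {k : ℕ} (i : Fin k) (j : Fin k) :
    Des (base k) (Sum.inr (Sum.inl i)) (Sum.inr (Sum.inr j)) := by
  intro S hi hj h
  rw [base_win] at h ⊢
  obtain ⟨a1, a2, a3⟩ := ins_B S i hi
  obtain ⟨b1, b2, b3⟩ := ins_C S j hj
  rw [a1, a2, a3]
  rw [b1, b2, b3] at h
  unfold W at h ⊢
  omega

lemma not_des_BA {k : ℕ} (hk : 3 ≤ k) (i : Fin k) (j : Fin 2) :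
    ¬ Des (base k) (Sum.inr (Sum.inl i)) (Sum.inl j) := by
  intro h
  have hi : (Sum.inr (Sum.inl i) : Pl k) ∉ mk {j + 1} ∅ {i} := by simp [mk]
  have hj : (Sum.inl j : Pl k) ∉ mk {j + 1} ∅ {i} := by
    simp only [mk, Finset.inl_mem_disjSum, Finset.mem_singleton]
    exact (by decide : ∀ j : Fin 2, ¬ j = j + 1) j
  have := h (mk {j + 1} ∅ {i}) hi hj (by
    rw [base_win]
    obtain ⟨a1, a2, a3⟩ := ins_A _ j hj
    rw [a1, a2, a3, cA_mk, cB_mk, cC_mk]
    simp [W])
  rw [base_win] at this
  obtain ⟨a1, a2, a3⟩ := ins_B _ i hi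
  rw [a1, a2, a3, cA_mk, cB_mk, cC_mk] at this
  simp only [W, Finset.card_singleton, Finset.card_empty] at this
  omega

lemma not_des_CA {k : ℕ} (hk : 3 ≤ k) (i : Fin k) (j : Fin 2) :
    ¬ Des (base k) (Sum.inr (Sum.inr i)) (Sum.inl j) := by
  intro h
  have hi : (Sum.inr (Sum.inr i) : Pl k) ∉ mk {j + 1} {i} ∅ := by simp [mk]
  have hj : (Sum.inl j : Pl k) ∉ mk {j + 1} {i} ∅ := by
    simp only [mk, Finset.inl_mem_disjSum, Finset.mem_singleton]
    exact (by decide : ∀ j : Fin 2, ¬ j = j + 1) j
  have := h (mk {j + 1} {i} ∅) hi hj (by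
    rw [base_win]
    obtain ⟨a1, a2, a3⟩ := ins_A _ j hj
    rw [a1, a2, a3, cA_mk, cB_mk, cC_mk]
    simp [W])
  rw [base_win] at this
  obtain ⟨a1, a2, a3⟩ := ins_C _ i hi
  rw [a1, a2, a3, cA_mk, cB_mk, cC_mk] at this
  simp only [W, Finset.card_singleton, Finset.card_empty] at this
  omega

lemma not_des_CB {k : ℕ} (hk : 3 ≤ k) (i : Fin k) (j : Fin k) :
    ¬ Des (base k) (Sum.inr (Sum.inr i)) (Sum.inr (Sum.inl j)) := by
  intro h
  have hi : (Sum.inr (Sum.inr i) : Pl k) ∉ mk {0} ∅ (univ.erase i) := by simp [mk]
  have hj : (Sum.inr (Sum.inl j) : Pl k) ∉ mk {0} ∅ (univ.erase i) := by simp [mk]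
  have hc : (univ.erase i : Finset (Fin k)).card = k - 1 := by
    rw [Finset.card_erase_of_mem (Finset.mem_univ i)]; simp
  have := h (mk {0} ∅ (univ.erase i)) hi hj (by
    rw [base_win]
    obtain ⟨a1, a2, a3⟩ := ins_B _ j hj
    rw [a1, a2, a3, cA_mk, cB_mk, cC_mk, hc]
    simp only [W, Finset.card_singleton, Finset.card_empty]
    omega)
  rw [base_win] at this
  obtain ⟨a1, a2, a3⟩ := ins_C _ i hi
  rw [a1, a2, a3, cA_mk, cB_mk, cC_mk, hc] at this
  simp only [W, Finset.card_singleton, Finset.card_empty] at this
  omega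

lemma complete_base (k : ℕ) : Complete (base k) := by
  rintro (i | i | i) (j | j | j)
  · exact Or.inl (des_AA i j)
  · exact Or.inl (des_AB i j)
  · exact Or.inl (des_AC i j)
  · exact Or.inr (des_AB j i)
  · exact Or.inl (des_BB i j)
  · exact Or.inl (des_BC i j)
  · exact Or.inr (des_AC j i)
  · exact Or.inr (des_BC j i)
  · exact Or.inl (des_CC i j)

lemma card_split3 {k : ℕ} (S : Finset (Pl k)) (P : Pl k → Prop) [DecidablePred P] :
    (S.filter P).card = (univ.filter (fun i : Fin 2 => Sum.inl i ∈ S ∧ P (Sum.inl i))).card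
      + ((univ.filter (fun i : Fin k => Sum.inr (Sum.inl i) ∈ S ∧ P (Sum.inr (Sum.inl i)))).card
      + (univ.filter (fun i : Fin k => Sum.inr (Sum.inr i) ∈ S ∧ P (Sum.inr (Sum.inr i)))).card)
      := by
  have h1 : (S.filter P) = univ.filter (fun z => z ∈ S ∧ P z) := by
    ext z; simp
  rw [h1, Finset.card_filter, Finset.card_filter, Finset.card_filter, Finset.card_filter,
    Fintype.sum_sum_type, Fintype.sum_sum_type]

lemma psum_A {k : ℕ} (hk : 3 ≤ k) (S : Finset (Pl k)) (i : Fin 2) :
    psum (base k) S (Sum.inl i) = cA S := by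
  classical
  unfold psum
  rw [card_split3, Finset.filter_congr (p := fun j : Fin 2 => Sum.inl j ∈ S ∧ _)
      (q := fun j : Fin 2 => Sum.inl j ∈ S) (fun j _ => ⟨fun h => h.1, fun h => ⟨h, des_AA j i⟩⟩),
    Finset.filter_false_of_mem (fun j _ h => not_des_BA hk j i h.2),
    Finset.filter_false_of_mem (fun j _ h => not_des_CA hk j i h.2)]
  simp [cA]

lemma psum_B {k : ℕ} (hk : 3 ≤ k) (S : Finset (Pl k)) (i : Fin k) :
    psum (base k) S (Sum.inr (Sum.inl i)) = cA S + cB S := by
  classical
  unfold psum
  rw [card_split3, Finset.filter_congr (p := fun j : Fin 2 => Sum.inl j ∈ S ∧ _)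
      (q := fun j : Fin 2 => Sum.inl j ∈ S)
      (fun j _ => ⟨fun h => h.1, fun h => ⟨h, des_AB j i⟩⟩),
    Finset.filter_congr (p := fun j : Fin k => Sum.inr (Sum.inl j) ∈ S ∧ _)
      (q := fun j : Fin k => Sum.inr (Sum.inl j) ∈ S)
      (fun j _ => ⟨fun h => h.1, fun h => ⟨h, des_BB j i⟩⟩),
    Finset.filter_false_of_mem (p := fun j : Fin k => Sum.inr (Sum.inr j) ∈ S ∧ _)
      (fun j _ h => not_des_CB hk j i h.2)]
  simp [cA, cB]

lemma psum_C {k : ℕ} (S : Finset (Pl k)) (i : Fin k) :
    psum (base k) S (Sum.inr (Sum.inr i)) = cA S + cB S + cC S := by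
  classical
  unfold psum
  rw [card_split3, Finset.filter_congr (p := fun j : Fin 2 => Sum.inl j ∈ S ∧ _)
      (q := fun j : Fin 2 => Sum.inl j ∈ S)
      (fun j _ => ⟨fun h => h.1, fun h => ⟨h, des_AC j i⟩⟩),
    Finset.filter_congr (p := fun j : Fin k => Sum.inr (Sum.inl j) ∈ S ∧ _)
      (q := fun j : Fin k => Sum.inr (Sum.inl j) ∈ S)
      (fun j _ => ⟨fun h => h.1, fun h => ⟨h, des_BC j i⟩⟩),
    Finset.filter_congr (p := fun j : Fin k => Sum.inr (Sum.inr j) ∈ S ∧ _)
      (q := fun j : Fin k => Sum.inr (Sum.inr j) ∈ S)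
      (fun j _ => ⟨fun h => h.1, fun h => ⟨h, des_CC j i⟩⟩)]
  simp [cA, cB, cC, add_assoc]

lemma typ_A {k : ℕ} (hk : 3 ≤ k) (S : Finset (Pl k)) (i : Fin 2) :
    typ (base k) S (Sum.inl i) = cA S := by
  classical
  unfold typ
  rw [card_split3, Finset.filter_congr (p := fun j : Fin 2 => Sum.inl j ∈ S ∧ _)
      (q := fun j : Fin 2 => Sum.inl j ∈ S)
      (fun j _ => ⟨fun h => h.1, fun h => ⟨h, des_AA j i, des_AA i j⟩⟩),
    Finset.filter_false_of_mem (fun j _ h => not_des_BA hk j i h.2.1),
    Finset.filter_false_of_mem (fun j _ h => not_des_CA hk j i h.2.1)]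
  simp [cA]

lemma typ_B {k : ℕ} (hk : 3 ≤ k) (S : Finset (Pl k)) (i : Fin k) :
    typ (base k) S (Sum.inr (Sum.inl i)) = cB S := by
  classical
  unfold typ
  rw [card_split3,
    Finset.filter_congr (p := fun j : Fin k => Sum.inr (Sum.inl j) ∈ S ∧ _)
      (q := fun j : Fin k => Sum.inr (Sum.inl j) ∈ S)
      (fun j _ => ⟨fun h => h.1, fun h => ⟨h, des_BB j i, des_BB i j⟩⟩),
    Finset.filter_false_of_mem (fun (j : Fin 2) _ h => not_des_BA hk i j h.2.2),
    Finset.filter_false_of_mem (p := fun j : Fin k => Sum.inr (Sum.inr j) ∈ S ∧ _)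
      (fun j _ h => not_des_CB hk j i h.2.1)]
  simp [cB]

lemma typ_C {k : ℕ} (hk : 3 ≤ k) (S : Finset (Pl k)) (i : Fin k) :
    typ (base k) S (Sum.inr (Sum.inr i)) = cC S := by
  classical
  unfold typ
  rw [card_split3,
    Finset.filter_congr (p := fun j : Fin k => Sum.inr (Sum.inr j) ∈ S ∧ _)
      (q := fun j : Fin k => Sum.inr (Sum.inr j) ∈ S)
      (fun j _ => ⟨fun h => h.1, fun h => ⟨h, des_CC j i, des_CC i j⟩⟩),
    Finset.filter_false_of_mem (fun (j : Fin 2) _ h => not_des_CA hk i j h.2.2),
    Finset.filter_false_of_mem (fun (j : Fin k) _ h => not_des_CB hk i j h.2.2)]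
  simp [cC]

lemma typ_eq_iff {k : ℕ} (hk : 3 ≤ k) (S T : Finset (Pl k)) :
    typ (base k) S = typ (base k) T ↔ (cA S = cA T ∧ cB S = cB T ∧ cC S = cC T) := by
  constructor
  · intro h
    have h1 := congrFun h (Sum.inl 0)
    have h2 := congrFun h (Sum.inr (Sum.inl ⟨0, by omega⟩))
    have h3 := congrFun h (Sum.inr (Sum.inr ⟨0, by omega⟩))
    rw [typ_A hk, typ_A hk] at h1
    rw [typ_B hk, typ_B hk] at h2
    rw [typ_C hk, typ_C hk] at h3
    exact ⟨h1, h2, h3⟩
  · rintro ⟨h1, h2, h3⟩
    funext z
    rcases z with i | i | i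
    · rw [typ_A hk, typ_A hk, h1]
    · rw [typ_B hk, typ_B hk, h2]
    · rw [typ_C hk, typ_C hk, h3]

lemma psum_le_iff {k : ℕ} (hk : 3 ≤ k) (S T : Finset (Pl k)) :
    (∀ z, psum (base k) S z ≤ psum (base k) T z) ↔
      (cA S ≤ cA T ∧ cA S + cB S ≤ cA T + cB T ∧ cA S + cB S + cC S ≤ cA T + cB T + cC T) := by
  constructor
  · intro h
    have h1 := h (Sum.inl 0)
    have h2 := h (Sum.inr (Sum.inl ⟨0, by omega⟩))
    have h3 := h (Sum.inr (Sum.inr ⟨0, by omega⟩))
    rw [psum_A hk, psum_A hk] at h1
    rw [psum_B hk, psum_B hk] at h2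
    rw [psum_C, psum_C] at h3
    exact ⟨h1, h2, h3⟩
  · rintro ⟨h1, h2, h3⟩ z
    rcases z with i | i | i
    · rw [psum_A hk, psum_A hk]; exact h1
    · rw [psum_B hk, psum_B hk]; exact h2
    · rw [psum_C, psum_C]; exact h3

/-- A coalition of type `(2,0,1)`. -/
def TA {k : ℕ} (o : Fin k) : Finset (Pl k) := mk univ ∅ {o}

/-- A coalition of type `(1,1,k-1)`. -/
def TB {k : ℕ} (o : Fin k) : Finset (Pl k) := mk {0} {o} (univ.erase o)

lemma TA_c {k : ℕ} (o : Fin k) : cA (TA o) = 2 ∧ cB (TA o) = 0 ∧ cC (TA o) = 1 := by
  unfold TA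
  rw [cA_mk, cB_mk, cC_mk]
  simp

lemma TB_c {k : ℕ} (o : Fin k) : cA (TB o) = 1 ∧ cB (TB o) = 1 ∧ cC (TB o) = k - 1 := by
  unfold TB
  rw [cA_mk, cB_mk, cC_mk, Finset.card_erase_of_mem (Finset.mem_univ o)]
  simp

lemma smw_base {k : ℕ} (hk : 3 ≤ k) (S : Finset (Pl k)) :
    SMW (base k) S ↔ ((cA S = 2 ∧ cB S = 0 ∧ cC S = 1) ∨ (cA S = 1 ∧ cB S = 1 ∧ cC S = k - 1)) := by
  constructor
  · rintro ⟨hw, hmin⟩
    have o : Fin k := ⟨0, by omega⟩
    obtain ⟨a1, a2, a3⟩ := TA_c o
    obtain ⟨b1, b2, b3⟩ := TB_c o
    rw [base_win] at hw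
    rcases hw with ⟨h1, h2⟩ | ⟨h1, h2, h3⟩
    · left
      by_contra hne
      refine hmin (TA o) ((psum_le_iff hk _ _).2 (by rw [a1, a2, a3]; omega)) ?_ ?_
      · rw [Ne, typ_eq_iff hk, a1, a2, a3]
        omega
      · rw [base_win, a1, a2, a3]
        simp [W]
    · right
      by_contra hne
      refine hmin (TB o) ((psum_le_iff hk _ _).2 (by rw [b1, b2, b3]; omega)) ?_ ?_
      · rw [Ne, typ_eq_iff hk, b1, b2, b3]
        omega
      · rw [base_win, b1, b2, b3]
        simp only [W]
        omega
  · intro h
    refine ⟨by rw [base_win]; unfold W; omega, ?_⟩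
    intro T hT hne hw
    rw [psum_le_iff hk] at hT
    rw [Ne, typ_eq_iff hk] at hne
    rw [base_win] at hw
    unfold W at hw
    omega

lemma num_base {k : ℕ} (hk : 3 ≤ k) : numSMW (base k) = 2 := by
  have o : Fin k := ⟨0, by omega⟩
  obtain ⟨a1, a2, a3⟩ := TA_c o
  obtain ⟨b1, b2, b3⟩ := TB_c o
  unfold numSMW
  have : {f : Pl k → ℕ | ∃ S : Finset (Pl k), SMW (base k) S ∧ f = typ (base k) S}
      = {typ (base k) (TA o), typ (base k) (TB o)} := by
    ext f
    simp only [Set.mem_ofPred_eq, Set.mem_insert_iff, Set.mem_singleton_iff]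
    constructor
    · rintro ⟨S, hS, rfl⟩
      rw [smw_base hk] at hS
      rw [typ_eq_iff hk, typ_eq_iff hk, a1, a2, a3, b1, b2, b3]
      exact hS
    · rintro (rfl | rfl)
      · exact ⟨TA o, (smw_base hk _).2 (Or.inl ⟨a1, a2, a3⟩), rfl⟩
      · exact ⟨TB o, (smw_base hk _).2 (Or.inr ⟨b1, b2, b3⟩), rfl⟩
  rw [this, Set.ncard_pair]
  rw [Ne, typ_eq_iff hk, a1, a2, a3, b1, b2, b3]
  omega

/-- In a trading transform the total numbers of members of each kind agree. -/
lemma trade_sum {k : ℕ} {j : ℕ} {ι : Type} [Fintype ι] (e : ι → Pl k) (X Y : Fin j → Finset (Pl k))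
    (h : ∀ p : Pl k, (univ.filter (fun i => p ∈ X i)).card
      = (univ.filter (fun i => p ∈ Y i)).card) :
    ∑ i, (univ.filter (fun a : ι => e a ∈ X i)).card
      = ∑ i, (univ.filter (fun a : ι => e a ∈ Y i)).card := by
  simp_rw [Finset.card_filter]
  rw [Finset.sum_comm]
  conv_rhs => rw [Finset.sum_comm]
  refine Finset.sum_congr rfl (fun a _ => ?_)
  have := h (e a)
  rw [Finset.card_filter, Finset.card_filter] at this
  exact this

lemma itr_base {k : ℕ} (hk : 3 ≤ k) : ITR (base k) (k - 1) := by
  intro j hj hjk X Y hX hY htr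
  have sA : ∑ i, cA (X i) = ∑ i, cA (Y i) := trade_sum Sum.inl X Y htr
  have sB : ∑ i, cB (X i) = ∑ i, cB (Y i) := trade_sum (fun a => Sum.inr (Sum.inl a)) X Y htr
  have sC : ∑ i, cC (X i) = ∑ i, cC (Y i) := trade_sum (fun a => Sum.inr (Sum.inr a)) X Y htr
  -- the weight (k, 1, 1)
  have hw : ∑ i, (k * cA (X i) + cB (X i) + cC (X i)) = ∑ i, (k * cA (Y i) + cB (Y i) + cC (Y i)) := by
    rw [Finset.sum_add_distrib, Finset.sum_add_distrib, Finset.sum_add_distrib,
      Finset.sum_add_distrib, ← Finset.mul_sum, ← Finset.mul_sum, sA, sB, sC]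
  have hXl : ∀ i, 2 * k ≤ k * cA (X i) + cB (X i) + cC (X i) := by
    intro i
    rcases (smw_base hk _).1 (hX i) with ⟨h1, h2, h3⟩ | ⟨h1, h2, h3⟩
    · rw [h1]; omega
    · rw [h1]; omega
  have hYc : ∀ i, cA (Y i) = 0 ∨ cA (Y i) = 1 ∨ cA (Y i) = 2 := by
    intro i
    have := cA_le (Y i)
    omega
  have hYu : ∀ i, k * cA (Y i) + cB (Y i) + cC (Y i) ≤ 2 * k := by
    intro i
    have h1 := hY i
    rw [base_win] at h1
    unfold W at h1
    have h2 := cB_le (Y i)
    have h3 := cC_le (Y i)
    rcases hYc i with h | h | h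
    · rw [h]; omega
    · rw [h] at h1 ⊢; omega
    · rw [h] at h1 ⊢; omega
  have e1 : ∑ i : Fin j, (2 * k) = ∑ i, (k * cA (X i) + cB (X i) + cC (X i)) := by
    apply le_antisymm
    · exact Finset.sum_le_sum (fun i _ => hXl i)
    · rw [hw]
      exact Finset.sum_le_sum (fun i _ => hYu i)
  have hXe : ∀ i, 2 * k = k * cA (X i) + cB (X i) + cC (X i) := by
    intro i
    exact (Finset.sum_eq_sum_iff_of_le (fun i _ => hXl i)).1 e1 i (Finset.mem_univ i)
  have hYe : ∀ i, k * cA (Y i) + cB (Y i) + cC (Y i) = 2 * k := by
    intro i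
    exact (Finset.sum_eq_sum_iff_of_le (fun i _ => hYu i)).1 (by rw [← hw, ← e1]) i
      (Finset.mem_univ i)
  have hXB : ∀ i, cB (X i) = 1 := by
    intro i
    rcases (smw_base hk _).1 (hX i) with ⟨h1, h2, h3⟩ | ⟨h1, h2, h3⟩
    · have := hXe i
      rw [h1] at this
      omega
    · exact h2
  have hYB : ∀ i, k ∣ cB (Y i) := by
    intro i
    have h1 := hY i
    rw [base_win] at h1
    unfold W at h1
    have h2 := cB_le (Y i)
    have h3 := cC_le (Y i)
    have h4 := hYe i
    rcases hYc i with h | h | h
    · rw [h] at h4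
      have : cB (Y i) = k := by omega
      rw [this]
    · rw [h] at h1 h4
      have : cB (Y i) = 0 := by omega
      rw [this]
      exact dvd_zero k
    · rw [h] at h1 h4
      have : cB (Y i) = 0 := by omega
      rw [this]
      exact dvd_zero k
  have hsum : ∑ i, cB (X i) = j := by
    simp [hXB]
  rw [hsum] at sB
  have hd : k ∣ j := by
    rw [sB]
    exact Finset.dvd_sum (fun i _ => hYB i)
  have := Nat.le_of_dvd hj hd
  omega

lemma not_itr_base {k : ℕ} (hk : 3 ≤ k) : ¬ ITR (base k) k := by
  intro h
  refine h k (by omega) le_rfl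
    (fun i => mk (if i.val = 0 then {1} else {0}) {i} (univ.erase i))
    (fun i => if i.val = 0 then mk univ ∅ ∅ else if i.val = 1 then mk ∅ univ univ
      else mk {0} ∅ univ) ?_ ?_ ?_
  · intro i
    rw [smw_base hk]
    right
    rw [cA_mk, cB_mk, cC_mk, Finset.card_erase_of_mem (Finset.mem_univ i)]
    split_ifs <;> simp
  · intro i
    rw [base_win]
    split_ifs
    · rw [cA_mk, cB_mk, cC_mk]
      simp only [W, Finset.card_univ, Fintype.card_fin, Finset.card_empty]
      omega
    · rw [cA_mk, cB_mk, cC_mk]
      simp only [W, Finset.card_univ, Fintype.card_fin, Finset.card_empty]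
      omega
    · rw [cA_mk, cB_mk, cC_mk]
      simp only [W, Finset.card_univ, Fintype.card_fin, Finset.card_empty, Finset.card_singleton]
      omega
  · have c0 : (univ.erase (⟨0, by omega⟩ : Fin k)).card = k - 1 := by
      rw [Finset.card_erase_of_mem (Finset.mem_univ _)]; simp
    have c1 : (univ.erase (⟨1, by omega⟩ : Fin k)).card = k - 1 := by
      rw [Finset.card_erase_of_mem (Finset.mem_univ _)]; simp
    intro p
    rcases p with p | p | p
    · rcases (by decide : ∀ p : Fin 2, p = 0 ∨ p = 1) p with rfl | rfl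
      · trans k - 1
        · rw [← c0]
          congr 1
          ext i
          simp only [Finset.mem_filter, Finset.mem_univ, true_and, Finset.mem_erase, and_true, mk,
            Finset.inl_mem_disjSum, Ne, Fin.ext_iff]
          split_ifs with h <;> simp [h]
        · rw [← c1]
          congr 1
          ext i
          simp only [Finset.mem_filter, Finset.mem_univ, true_and, Finset.mem_erase, and_true, mk,
            Ne, Fin.ext_iff]
          split_ifs with h h' <;> simp [h]
          · exact h'
          · exact h'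
      · congr 1
        ext i
        simp only [Finset.mem_filter, Finset.mem_univ, true_and, mk,
          Finset.inl_mem_disjSum]
        split_ifs with h h' <;> simp
    · trans 1
      · rw [Finset.card_eq_one]
        refine ⟨p, ?_⟩
        ext i
        simp [mk, eq_comm]
      · symm
        rw [Finset.card_eq_one]
        refine ⟨⟨1, by omega⟩, ?_⟩
        ext i
        simp only [Finset.mem_filter, Finset.mem_univ, true_and, mk, Finset.mem_singleton,
          Fin.ext_iff]
        split_ifs with h h' <;> simp [h]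
        · exact h'
        · exact h'
    · trans k - 1
      · have c2 : (univ.erase p).card = k - 1 := by
          rw [Finset.card_erase_of_mem (Finset.mem_univ _)]; simp
        rw [← c2]
        congr 1
        ext i
        simp [mk, eq_comm]
      · rw [← c0]
        congr 1
        ext i
        simp only [Finset.mem_filter, Finset.mem_univ, true_and, mk, Finset.mem_erase,
          Fin.ext_iff, Ne, and_true]
        split_ifs with h h' <;> simp [h]

/-! ### The theorem -/

/-- For every `r ≥ 2` and every `m ≥ 2` (in particular for every `r ≥ 5` and `m ≥ 3`) there is a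
complete simple game, with the empty coalition losing and the grand coalition winning, with
exactly `r` shift-minimal winning types, which is `m`-invariant trade robust but not
`(m+1)`-invariant trade robust. -/
theorem result : ∀ r ≥ 2, ∀ m ≥ 2, ∃ (N : Type) (_ : Fintype N) (_ : DecidableEq N)
    (G : SimpleGame N), Complete G ∧ ¬ G.win ∅ ∧ G.win univ ∧ numSMW G = r ∧
      ITR G m ∧ ¬ ITR G (m + 1) := by
  intro r hr m hm
  suffices h : ∃ (N : Type) (_ : Fintype N) (_ : DecidableEq N)
      (G : SimpleGame N), Complete G ∧ ¬ G.win ∅ ∧ G.win univ ∧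
      (∀ x : N, ∃ S : Finset N, x ∉ S ∧ G.win S) ∧ numSMW G = r ∧
      ITR G m ∧ ¬ ITR G (m + 1) by
    obtain ⟨N, i1, i2, G, h1, h2, h3, _, h5, h6, h7⟩ := h
    exact ⟨N, i1, i2, G, h1, h2, h3, h5, h6, h7⟩
  induction r, hr using Nat.le_induction with
  | base =>
    have hk : 3 ≤ m + 1 := by omega
    refine ⟨Pl (m + 1), inferInstance, inferInstance, base (m + 1), complete_base _, ?_, ?_, ?_,
      num_base hk, itr_base hk, not_itr_base hk⟩
    · rw [base_win]
      simp [W, cA, cB, cC]
    · rw [base_win]
      simp only [W, cA, cB, cC, Finset.mem_univ, Finset.filter_true, Finset.card_univ,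
        Fintype.card_fin]
      omega
    · intro x
      refine ⟨univ.erase x, by simp, ?_⟩
      rw [base_win]
      have hb : ∀ j : ℕ, ∀ y : Fin j, (univ.filter (fun i : Fin j => i ≠ y)).card = j - 1 := by
        intro j y
        rw [Finset.filter_ne', Finset.card_erase_of_mem (Finset.mem_univ y)]
        simp
      rcases x with x | x | x
      · simp only [W, cA, cB, cC, Finset.mem_erase, Ne, Sum.inl.injEq, Finset.mem_univ, and_true,
          reduceCtorEq, not_false_eq_true, Finset.filter_true, Finset.card_univ,
          Fintype.card_fin]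
        have := hb 2 x
        simp only [Ne] at this
        rw [this]
        omega
      · simp only [W, cA, cB, cC, Finset.mem_erase, Ne, Finset.mem_univ, and_true,
          reduceCtorEq, not_false_eq_true, Finset.filter_true, Finset.card_univ, Sum.inr.injEq,
          Fintype.card_fin]
        omega
      · simp only [W, cA, cB, cC, Finset.mem_erase, Ne, Finset.mem_univ, and_true,
          reduceCtorEq, not_false_eq_true, Finset.filter_true, Finset.card_univ, Sum.inr.injEq,
          Fintype.card_fin]
        omega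
  | succ r hr ih =>
    obtain ⟨N, i1, i2, G, h1, h2, h3, h4, h5, h6, h7⟩ := ih
    refine ⟨Option (Option N), inferInstance, inferInstance, step G, complete_step G h1,
      ?_, ?_, ?_, ?_, (itr_step G h2 h4 m).2 h6, fun h => h7 ((itr_step G h2 h4 (m + 1)).1 h)⟩
    · rw [step_win]
      simp
    · rw [step_win]
      simp
    · intro x
      rcases x with _ | x
      · refine ⟨up univ, none_notMem_up _, ?_⟩
        rw [step_win]
        right
        exact ⟨v_mem_up _, by rwa [core_up]⟩
      · refine ⟨{none}, by simp, ?_⟩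
        rw [step_win]
        left
        simp
    · rw [num_step G h2 h4, h5]

end Pool.Agent.Results.MP_0d0d23_co.AllRanks
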